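import Mathlib
import Pool.Agent.Q212.TwoCoin

/-!
# A pair of patterns whose winning probability has two local minima
-/

namespace Pool.Agent.Results.MP_cbbafe_pr.TwoMinima

open Set
open Pool.Agent.Q212.TwoCoin

/-- For the pair of patterns `(HT, HHTT)` the winning probability `W` is not constant on `(0,1)` and
has (at least) two local minima there, one in `(0,1/2)` and one in `(1/2,1)`. -/
theorem result : ∃ T₁ T₂ : List Bool, T₁ ≠ [] ∧ T₂ ≠ [] ∧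
    (∃ p ∈ Ioo (0 : ℝ) 1, ∃ p' ∈ Ioo (0 : ℝ) 1, W T₁ T₂ p ≠ W T₁ T₂ p') ∧
    ∃ x ∈ Ioo (0 : ℝ) (1 / 2), ∃ y ∈ Ioo (1 / 2 : ℝ) 1,
      IsLocalMin (W T₁ T₂) x ∧ IsLocalMin (W T₁ T₂) y := by
  obtain ⟨x, y, h1, h2, h3, h4, h5, h6⟩ := two_minima
  exact ⟨w1, w2, by simp [w1], by simp [w2],
    ⟨1 / 5, ⟨by norm_num, by norm_num⟩, 1 / 20, ⟨by norm_num, by norm_num⟩, non_constant⟩,
    x, ⟨h1, h2⟩, y, ⟨h3, h4⟩, h5, h6⟩

end Pool.Agent.Results.MP_cbbafe_pr.TwoMinima
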